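import Pool.Agent.H543R3.PC.Final

set_option autoImplicit false

/-!
# The Borel complexity of: some `coNP`-complete set has a p-optimal proof system

Wraps `Pool.Agent.H543R3.PC` (helper543 and others), which builds on the random oracle library of
helper628 and on the Borel library of helper556.
-/

namespace Pool.Agent.Results.MP_f0c157_lc.BorelComplexity

open Pool.Agent.H628R3.RO

/-- Relative to `A` some `coNP`-complete set has a `p`-optimal proof system. -/
def HasComplete (A : Oracle) : Prop :=
  ∃ L : Set (List Bool), IsCoNP A L ∧ CoNPHardRel A L ∧ ∃ P, IsPOptimal A L P

/-- The set of the oracles relative to which some `coNP`-complete set has a p-optimal proof system is `Σ⁰₄`-complete. -/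
theorem result : H556R2.Sigma04Complete {A : Oracle | HasComplete A} :=
  Pool.Agent.H543R3.PC.poptT_complete

end Pool.Agent.Results.MP_f0c157_lc.BorelComplexity
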